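import Pool.Agent.H32.QC.TargetsL

/-!
# Values of ternary forms
-/

set_option autoImplicit false

open NumberField IsDedekindDomain Pool.Agent.H32.QC

namespace Pool.Agent.H32.QCL

theorem sol_comm {L : Type} [Field L] (a b : L) : Sol a b ↔ Sol b a := by
  constructor
  · rintro ⟨x, y, z, h, e⟩
    refine ⟨y, x, z, ?_, by rw [e]; ring⟩
    tauto
  · rintro ⟨x, y, z, h, e⟩
    refine ⟨y, x, z, ?_, by rw [e]; ring⟩
    tauto

theorem hil_congr {L M : Type} [Field L] [Field M] {a b : L} {c d : M} (h : Sol a b ↔ Sol c d) :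
    hil a b = hil c d := by
  unfold hil
  by_cases h1 : Sol a b
  · rw [if_pos h1, if_pos (h.1 h1)]
  · rw [if_neg h1, if_neg (fun h3 => h1 (h.2 h3))]

theorem hil_comm {L : Type} [Field L] (a b : L) : hil a b = hil b a := hil_congr (sol_comm a b)

theorem hil_eq_one {L : Type} [Field L] {a b : L} : hil a b = 1 ↔ Sol a b := by
  unfold hil
  split_ifs with h
  · simp [h]
  · simp [h]

/-- norm forms of squares are universal -/
theorem rep_sq {L : Type} [Field L] (h2 : (2 : L) ≠ 0) {d : L} (hd : d ≠ 0) (hs : IsSquare d)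
    (m : L) : ∃ p q : L, m = p ^ 2 - d * q ^ 2 := by
  obtain ⟨s, rfl⟩ := hs
  have hs0 : s ≠ 0 := by
    rintro rfl
    simp at hd
  refine ⟨(m + 1) / 2, (m - 1) / (2 * s), ?_⟩
  field_simp
  ring

theorem sol_iff {L : Type} [Field L] {d : L} (hs : ¬ IsSquare d) (m : L) :
    Sol d m ↔ ∃ p q : L, m = p ^ 2 - d * q ^ 2 := by
  constructor
  · rintro ⟨x, y, z, h, e⟩
    have hy : y ≠ 0 := by
      rintro rfl
      by_cases hx : x = 0
      · subst hx
        have hz : z = 0 := by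
          have : z ^ 2 = 0 := by rw [e]; ring
          exact pow_eq_zero_iff (two_ne_zero) |>.1 this
        subst hz
        tauto
      · apply hs
        refine ⟨z / x, ?_⟩
        have h1 : z ^ 2 = d * x ^ 2 := by rw [e]; ring
        field_simp
        linear_combination -h1
    refine ⟨z / y, x / y, ?_⟩
    field_simp
    linear_combination -e
  · rintro ⟨p, q, rfl⟩
    exact ⟨q, 1, p, Or.inr (Or.inl one_ne_zero), by ring⟩

theorem common {L : Type} [Field L] (hBIM : T_BIM) (h2 : (2 : L) ≠ 0) (hNI : NI L)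
    (d1 d2 a x : L) (hd1 : d1 ≠ 0) (hd2 : d2 ≠ 0) (ha : a ≠ 0) (hx : x ≠ 0)
    (h12 : ¬ IsSquare (d1 * d2)) :
    ∃ e : L, e ≠ 0 ∧ (∃ p q : L, e = a * (p ^ 2 - d1 * q ^ 2)) ∧
      ∃ p q : L, e = x * (p ^ 2 - d2 * q ^ 2) := by
  by_cases hs1 : IsSquare d1
  · obtain ⟨p, q, h⟩ := rep_sq h2 hd1 hs1 (x / a)
    refine ⟨x, hx, ⟨p, q, ?_⟩, 1, 0, by ring⟩
    rw [← h]
    field_simp
  by_cases hs2 : IsSquare d2
  · obtain ⟨p, q, h⟩ := rep_sq h2 hd2 hs2 (a / x)
    refine ⟨a, ha, ⟨1, 0, by ring⟩, p, q, ?_⟩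
    rw [← h]
    field_simp
  obtain ⟨N1, hi1, hN1⟩ := hNI d1 hd1 hs1
  obtain ⟨N2, hi2, hN2⟩ := hNI d2 hd2 hs2
  obtain ⟨N3, hi3, hN3⟩ := hNI (d1 * d2) (mul_ne_zero hd1 hd2) h12
  have hne : N1 ≠ N2 := by
    intro h
    have h3 : ∀ m : Lˣ, m ∈ N3 := by
      intro m
      rw [hN3 m, sol_comm, ← hil_eq_one, hBIM L h2 hNI (m : L) d1 d2 m.ne_zero hd1 hd2]
      have h4 : hil (m : L) d1 = hil (m : L) d2 := by
        refine hil_congr ?_
        rw [sol_comm (m : L) d1, sol_comm (m : L) d2, ← hN1 m, ← hN2 m, h]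
      rw [h4]
      unfold hil
      split_ifs <;> norm_num
    have h5 : N3 = ⊤ := by
      rw [eq_top_iff]
      intro m _
      exact h3 m
    rw [h5, Subgroup.index_top] at hi3
    norm_num at hi3
  obtain ⟨n, hn1, hn2⟩ : ∃ n, n ∈ N1 ∧ n ∉ N2 := by
    by_contra hcon
    push Not at hcon
    have hle : N1 ≤ N2 := hcon
    apply hne
    have h1 := Subgroup.relIndex_mul_index hle
    rw [hi1, hi2] at h1
    have h3 : N1.relIndex N2 = 1 := by omega
    rw [Subgroup.relIndex_eq_one] at h3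
    exact le_antisymm hle h3
  set ua : Lˣ := Units.mk0 a ha with hua
  set ux : Lˣ := Units.mk0 x hx with hux
  obtain ⟨g, hg1, hg2⟩ : ∃ g : Lˣ, g * ua⁻¹ ∈ N1 ∧ g * ux⁻¹ ∈ N2 := by
    by_cases h : ua * ux⁻¹ ∈ N2
    · exact ⟨ua, by rw [mul_inv_cancel]; exact N1.one_mem, h⟩
    · refine ⟨ua * n, ?_, ?_⟩
      · rw [mul_comm ua n, mul_assoc, mul_inv_cancel, mul_one]
        exact hn1
      · rw [mul_comm ua n, mul_assoc, Subgroup.mul_mem_iff_of_index_two hi2]
        tauto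
  refine ⟨(g : L), g.ne_zero, ?_, ?_⟩
  · rw [hN1, sol_iff hs1] at hg1
    obtain ⟨p, q, h⟩ := hg1
    refine ⟨p, q, ?_⟩
    rw [← h, Units.val_mul, Units.val_inv_eq_inv_val, hua, Units.val_mk0]
    field_simp
  · rw [hN2, sol_iff hs2] at hg2
    obtain ⟨p, q, h⟩ := hg2
    refine ⟨p, q, ?_⟩
    rw [← h, Units.val_mul, Units.val_inv_eq_inv_val, hux, Units.val_mk0]
    field_simp

theorem pf_TER (hBIM : T_BIM) : T_TER := by
  intro L _ h2 hNI a b c x ha hb hc hx hns
  have hd1 : -(a * b) ≠ 0 := neg_ne_zero.2 (mul_ne_zero ha hb)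
  have hd2 : c * x ≠ 0 := mul_ne_zero hc hx
  obtain ⟨e, he, ⟨y, z, h1⟩, p, q, h3⟩ := common hBIM h2 hNI (-(a * b)) (c * x) a x hd1 hd2 ha hx
    (by
      intro h
      apply hns
      have h4 : -(a * b) * (c * x) = -(a * b * c * x) := by ring
      rw [← h4]
      exact h)
  by_cases hp : p = 0
  · subst hp
    set w : L := x * q with hw
    have h4 : a * y ^ 2 + b * (a * z) ^ 2 + c * w ^ 2 = 0 := by
      rw [hw]
      linear_combination -h1 + h3
    have hw0 : w ≠ 0 := by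
      intro h
      apply he
      rw [h3]
      have h5 : x * (0 ^ 2 - c * x * q ^ 2) = -c * w ^ 2 := by
        rw [hw]
        ring
      rw [h5, h]
      ring
    set r : L := (x - c) / (2 * c * w) with hr
    have h6 : r * (2 * c * w) = x - c := by
      rw [hr]
      field_simp
    refine ⟨r * y, r * (a * z), r * w + 1, ?_⟩
    linear_combination r ^ 2 * h4 + h6
  · refine ⟨y / p, a * z / p, x * q / p, ?_⟩
    have h4 : a * y ^ 2 + b * (a * z) ^ 2 + c * (x * q) ^ 2 = x * p ^ 2 := by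
      linear_combination -h1 + h3
    field_simp
    linear_combination h4

end Pool.Agent.H32.QCL
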